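import Pool.Agent.L0h45.LR.Stm
import Pool.Agent.L0h85.VL.V4

/-! Module W1 of project LR (helper45), written by helper29. -/

set_option autoImplicit false

open Finset
open scoped Classical

namespace Pool.Agent.L0h29.LR

open Pool.Agent.L0h45.LR Pool.Agent.L0h85.VL

/-- a sum over a set of integers in one class modulo `q` -/
theorem sum_cls (q N : ℕ) (hq : 1 ≤ q) (S : Finset ℕ) (hS : ∀ x ∈ S, 1 ≤ x ∧ x ≤ N)
    (hc : ∀ x ∈ S, ∀ y ∈ S, x % q = y % q) : ∑ x ∈ S, 1 / √(x : ℝ) ≤ 1 + 2 * √(N : ℝ) / q := by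
  have hq0 : (0 : ℝ) < q := by exact_mod_cast hq
  have hs : 0 < √(q : ℝ) := Real.sqrt_pos.mpr hq0
  have hinj : Set.InjOn (fun x : ℕ => x / q) (S : Set ℕ) := by
    intro x hx y hy h
    have h1 := hc x hx y hy
    have h2 : x / q = y / q := h
    rw [← Nat.div_add_mod x q, ← Nat.div_add_mod y q, h1, h2]
  have h1 : ∑ x ∈ S, 1 / √(x : ℝ) ≤ ∑ x ∈ S, (fun i : ℕ => if i = 0 then (1 : ℝ) else 1 / √((q * i : ℕ) : ℝ)) (x / q) := by
    apply Finset.sum_le_sum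
    intro x hx
    have h3 : (1 : ℝ) ≤ x := by exact_mod_cast (hS x hx).1
    show 1 / √(x : ℝ) ≤ if x / q = 0 then (1 : ℝ) else 1 / √((q * (x / q) : ℕ) : ℝ)
    split_ifs with h
    · rw [div_le_one (Real.sqrt_pos.mpr (by linarith))]
      exact Real.one_le_sqrt.mpr h3
    · have h4 : 0 < q * (x / q) := Nat.mul_pos hq (Nat.pos_of_ne_zero h)
      apply one_div_le_one_div_of_le
      · exact Real.sqrt_pos.mpr (by exact_mod_cast h4)
      · exact Real.sqrt_le_sqrt (by exact_mod_cast Nat.mul_div_le x q)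
  rw [← Finset.sum_image (f := fun i : ℕ => if i = 0 then (1 : ℝ) else 1 / √((q * i : ℕ) : ℝ))
    (g := fun x : ℕ => x / q) hinj] at h1
  have h2 : S.image (fun x : ℕ => x / q) ⊆ insert 0 (Icc 1 (N / q)) := by
    intro i hi
    rw [Finset.mem_image] at hi
    obtain ⟨x, hx, rfl⟩ := hi
    rw [Finset.mem_insert, Finset.mem_Icc]
    rcases Nat.eq_zero_or_pos (x / q) with h | h
    · exact Or.inl h
    · exact Or.inr ⟨h, Nat.div_le_div_right (hS x hx).2⟩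
  refine h1.trans ((Finset.sum_le_sum_of_subset_of_nonneg h2 (fun i _ _ => ?_)).trans ?_)
  · show (0 : ℝ) ≤ if i = 0 then (1 : ℝ) else 1 / √((q * i : ℕ) : ℝ)
    split_ifs <;> positivity
  rw [Finset.sum_insert (by simp)]
  have e1 : ∀ k ∈ Icc 1 (N / q), (if k = 0 then (1 : ℝ) else 1 / √((q * k : ℕ) : ℝ)) =
      (1 / √(q : ℝ)) * (1 / √(k : ℝ)) := by
    intro k hk
    rw [Finset.mem_Icc] at hk
    rw [if_neg (by omega)]
    push_cast
    rw [Real.sqrt_mul hq0.le, div_mul_div_comm, one_mul]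
  rw [if_pos rfl, Finset.sum_congr rfl e1, ← Finset.mul_sum]
  have h3 := sum_inv_sqrt (N / q)
  have h4 : √((N / q : ℕ) : ℝ) ≤ √(N : ℝ) / √(q : ℝ) := by
    rw [← Real.sqrt_div (Nat.cast_nonneg N)]
    exact Real.sqrt_le_sqrt Nat.cast_div_le
  have h5 : 1 / √(q : ℝ) * ∑ i ∈ Icc 1 (N / q), 1 / √(i : ℝ) ≤ 2 * √(N : ℝ) / q := by
    calc 1 / √(q : ℝ) * ∑ i ∈ Icc 1 (N / q), 1 / √(i : ℝ)
        ≤ 1 / √(q : ℝ) * (2 * (√(N : ℝ) / √(q : ℝ))) := by
          apply mul_le_mul_of_nonneg_left _ (by positivity)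
          linarith
      _ = 2 * √(N : ℝ) / (√(q : ℝ) * √(q : ℝ)) := by field_simp
      _ = 2 * √(N : ℝ) / q := by rw [Real.mul_self_sqrt hq0.le]
  linarith

/-- the part of `g` which divides `y` if `g ∣ 2 y` -/
theorem half (g : ℕ) (hg : 1 ≤ g) : ∃ h : ℕ, 1 ≤ h ∧ g ≤ 2 * h ∧ h ∣ g ∧ ∀ y, g ∣ 2 * y → h ∣ y := by
  rcases Nat.even_or_odd g with ⟨h, hh⟩ | ho
  · refine ⟨h, by omega, by omega, ⟨2, by omega⟩, fun y hy => ?_⟩
    have : 2 * h ∣ 2 * y := by rwa [show 2 * h = g by omega]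
    exact Nat.dvd_of_mul_dvd_mul_left (by norm_num) this
  · refine ⟨g, hg, by omega, dvd_rfl, fun y hy => ?_⟩
    exact (Nat.Coprime.dvd_of_dvd_mul_left (Nat.coprime_two_right.mpr ho) hy)

/-- the sum -/
noncomputable def A (g M N : ℕ) (z : ℤ) : ℝ :=
  ∑ x ∈ (Icc 1 N).filter (fun x : ℕ => (M : ℤ) ∣ x - z ∧ g ∣ 2 * x), 1 / √(x : ℝ)

theorem A_nonneg (g M N : ℕ) (z : ℤ) : 0 ≤ A g M N z :=
  Finset.sum_nonneg (fun _ _ => by positivity)

theorem A_le (g M N : ℕ) (z : ℤ) (hg : 1 ≤ g) : A g M N z ≤ 4 * √(N : ℝ) / g := by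
  obtain ⟨h, h1, h2, h3, h4⟩ := half g hg
  have h5 := sum_b h N h1
  have h6 : A g M N z ≤ ∑ b ∈ (Icc 1 N).filter (fun b => h ∣ b), 1 / √(b : ℝ) := by
    refine Finset.sum_le_sum_of_subset_of_nonneg (fun x hx => ?_) (fun _ _ _ => by positivity)
    rw [Finset.mem_filter] at hx ⊢
    exact ⟨hx.1, h4 x hx.2.2⟩
  have hh0 : (0 : ℝ) < h := by exact_mod_cast h1
  have hg0 : (0 : ℝ) < g := by exact_mod_cast hg
  have h7 : 2 * √(N : ℝ) / h ≤ 4 * √(N : ℝ) / g := by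
    rw [div_le_div_iff₀ hh0 hg0]
    have h8 : (g : ℝ) ≤ 2 * h := by exact_mod_cast h2
    nlinarith [Real.sqrt_nonneg (N : ℝ)]
  linarith

theorem A_le' (g M N : ℕ) (z : ℤ) (hg : 1 ≤ g) (hM : 1 ≤ M) (hc : Nat.Coprime g M) :
    A g M N z ≤ 1 + 4 * √(N : ℝ) / (g * M) := by
  obtain ⟨h, h1, h2, h3, h4⟩ := half g hg
  have hc' : Nat.Coprime h M := Nat.Coprime.coprime_dvd_left h3 hc
  have h5 := sum_cls (h * M) N (Nat.mul_pos h1 hM)
    ((Icc 1 N).filter (fun x : ℕ => (M : ℤ) ∣ x - z ∧ g ∣ 2 * x))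
    (fun x hx => by rw [Finset.mem_filter, Finset.mem_Icc] at hx; exact hx.1)
    (fun x hx y hy => by
      rw [Finset.mem_filter] at hx hy
      have e1 : x ≡ y [MOD h] := ((Nat.modEq_zero_iff_dvd.mpr (h4 x hx.2.2))).trans
        ((Nat.modEq_zero_iff_dvd.mpr (h4 y hy.2.2))).symm
      have e2 : x ≡ y [MOD M] := by
        rw [← Int.natCast_modEq_iff]
        refine (Int.modEq_iff_dvd.mpr ?_)
        have := dvd_sub hy.2.1 hx.2.1
        rwa [show ((y : ℤ) - z - (x - z)) = y - x by ring] at this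
      exact (Nat.modEq_and_modEq_iff_modEq_mul hc').mp ⟨e1, e2⟩)
  have hh0 : (0 : ℝ) < h := by exact_mod_cast h1
  have hg0 : (0 : ℝ) < g := by exact_mod_cast hg
  have hM0 : (0 : ℝ) < M := by exact_mod_cast hM
  have h7 : 2 * √(N : ℝ) / ((h * M : ℕ) : ℝ) ≤ 4 * √(N : ℝ) / (g * M) := by
    push_cast
    rw [div_le_div_iff₀ (by positivity) (by positivity)]
    have h8 : (g : ℝ) ≤ 2 * h := by exact_mod_cast h2
    have h9 : 0 ≤ √(N : ℝ) * M := by positivity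
    nlinarith
  unfold A
  linarith

theorem A_le'' (g M N : ℕ) (z : ℤ) (hg : 1 ≤ g) (hM : 1 ≤ M) (hc : Nat.Coprime g M)
    (hN : (g * M) ^ 2 ≤ N) : A g M N z ≤ 5 * √(N : ℝ) / (g * M) := by
  have h1 := A_le' g M N z hg hM hc
  have hg0 : (0 : ℝ) < g := by exact_mod_cast hg
  have hM0 : (0 : ℝ) < M := by exact_mod_cast hM
  have h2 : (g : ℝ) * M ≤ √(N : ℝ) := by
    apply Real.le_sqrt_of_sq_le
    exact_mod_cast hN
  have h3 : 1 ≤ √(N : ℝ) / (g * M) := by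
    rw [le_div_iff₀ (by positivity)]
    linarith
  have h4 : 5 * √(N : ℝ) / (g * M) = √(N : ℝ) / (g * M) + 4 * √(N : ℝ) / (g * M) := by ring
  linarith

/-- the tail of the sum is small -/
theorem tail (ε : ℝ) (hε : 0 < ε) : ∃ G : ℕ, ∀ N : ℕ,
    ∑ g ∈ (Icc 1 N).filter (fun g => G < g), (tn g : ℝ) * w g ≤ ε := by
  have hf0 : ∀ g : ℕ, 0 ≤ (tn g : ℝ) * w g := fun g => mul_nonneg (Nat.cast_nonneg _) (w_nonneg g)
  have hz : (tn 0 : ℝ) * w 0 = 0 := by simp [tn]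
  have hr : ∀ n : ℕ, ∑ g ∈ range n, (tn g : ℝ) * w g ≤ 9 := by
    intro n
    have h1 : range n ⊆ insert 0 (Icc 1 n) := by
      intro i hi
      rw [Finset.mem_range] at hi
      rw [Finset.mem_insert, Finset.mem_Icc]
      omega
    refine (Finset.sum_le_sum_of_subset_of_nonneg h1 (fun i _ _ => hf0 i)).trans ?_
    rw [Finset.sum_insert (by simp), hz, zero_add]
    exact sum_tau n
  have hs : Summable (fun g : ℕ => (tn g : ℝ) * w g) := summable_of_sum_range_le hf0 hr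
  have h2 := hs.hasSum.tendsto_sum_nat
  rw [Metric.tendsto_atTop] at h2
  obtain ⟨G, hG⟩ := h2 ε hε
  refine ⟨G, fun N => ?_⟩
  have h3 := hG (G + 1) (by omega)
  rw [Real.dist_eq, abs_lt] at h3
  have h4 : ∑ g ∈ (Icc 1 N).filter (fun g => G < g), (tn g : ℝ) * w g +
      ∑ g ∈ range (G + 1), (tn g : ℝ) * w g ≤ ∑' g : ℕ, (tn g : ℝ) * w g := by
    rw [← Finset.sum_union]
    · exact hs.sum_le_tsum _ (fun i _ => hf0 i)
    · rw [Finset.disjoint_left]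
      intro g hg hg'
      rw [Finset.mem_filter] at hg
      rw [Finset.mem_range] at hg'
      omega
  linarith [h3.1]

theorem t_W1 : S_W1 := by
  refine ⟨225, by norm_num, ?_⟩
  intro M ε hM hodd hε
  obtain ⟨G, hG⟩ := tail (ε / 16) (by positivity)
  refine ⟨(G * M) ^ 2, ?_⟩
  intro P R hP hR x₀ y₀
  have hM0 : (0 : ℝ) < M := by exact_mod_cast hM
  set K := √((P : ℝ) * R) with hK
  have hK' : √(P : ℝ) * √(R : ℝ) = K := by rw [hK, Real.sqrt_mul (Nat.cast_nonneg P)]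
  have hK0 : 0 ≤ K := Real.sqrt_nonneg _
  -- termwise
  have hterm : ∀ x ∈ (Icc 1 P).filter (fun x : ℕ => (M : ℤ) ∣ x - x₀),
      ∑ y ∈ (Icc 1 R).filter (fun y : ℕ => (M : ℤ) ∣ y - y₀ ∧ Nat.Coprime (Nat.gcd x (2 * y)) M),
        (tn (Nat.gcd x (2 * y)) : ℝ) * √(Nat.gcd x (2 * y) : ℝ) / √((x : ℝ) * y) ≤
      ∑ y ∈ (Icc 1 R).filter (fun y : ℕ => (M : ℤ) ∣ y - y₀),
        ∑ g ∈ (Icc 1 P).filter (fun g => Nat.Coprime g M), (tn g : ℝ) * √(g : ℝ) *
        ((if g ∣ 2 * x then 1 / √(x : ℝ) else 0) * (if g ∣ 2 * y then 1 / √(y : ℝ) else 0)) := by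
    intro x hx
    rw [Finset.mem_filter, Finset.mem_Icc] at hx
    have hsub : (Icc 1 R).filter (fun y : ℕ => (M : ℤ) ∣ y - y₀ ∧
        Nat.Coprime (Nat.gcd x (2 * y)) M) ⊆ (Icc 1 R).filter (fun y : ℕ => (M : ℤ) ∣ y - y₀) := by
      intro y hy
      rw [Finset.mem_filter] at hy ⊢
      exact ⟨hy.1, hy.2.1⟩
    refine le_trans (Finset.sum_le_sum fun y hy => ?_)
      (Finset.sum_le_sum_of_subset_of_nonneg hsub (fun y _ _ => Finset.sum_nonneg fun g _ => ?_))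
    · rw [Finset.mem_filter, Finset.mem_Icc] at hy
      have hmem : Nat.gcd x (2 * y) ∈ (Icc 1 P).filter (fun g => Nat.Coprime g M) := by
        rw [Finset.mem_filter, Finset.mem_Icc]
        exact ⟨⟨Nat.gcd_pos_of_pos_left _ hx.1.1,
          (Nat.le_of_dvd hx.1.1 (Nat.gcd_dvd_left _ _)).trans hx.1.2⟩, hy.2.2⟩
      refine le_trans (le_of_eq ?_) (Finset.single_le_sum (f := fun g : ℕ =>
        (tn g : ℝ) * √(g : ℝ) *
        ((if g ∣ 2 * x then 1 / √(x : ℝ) else 0) * (if g ∣ 2 * y then 1 / √(y : ℝ) else 0)))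
        (fun g _ => ?_) hmem)
      · have d1 : Nat.gcd x (2 * y) ∣ 2 * x := (Nat.gcd_dvd_left _ _).mul_left 2
        have d2 : Nat.gcd x (2 * y) ∣ 2 * y := Nat.gcd_dvd_right _ _
        simp only [d1, d2, if_true]
        rw [Real.sqrt_mul (Nat.cast_nonneg x)]
        rw [div_mul_div_comm, one_mul, mul_one_div]
      · show (0 : ℝ) ≤ _
        positivity
    · positivity
  have hcomm : ∑ x ∈ (Icc 1 P).filter (fun x : ℕ => (M : ℤ) ∣ x - x₀),
      ∑ y ∈ (Icc 1 R).filter (fun y : ℕ => (M : ℤ) ∣ y - y₀),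
        ∑ g ∈ (Icc 1 P).filter (fun g => Nat.Coprime g M), (tn g : ℝ) * √(g : ℝ) *
        ((if g ∣ 2 * x then 1 / √(x : ℝ) else 0) * (if g ∣ 2 * y then 1 / √(y : ℝ) else 0)) =
      ∑ g ∈ (Icc 1 P).filter (fun g => Nat.Coprime g M), (tn g : ℝ) * √(g : ℝ) *
        (A g M P x₀ * A g M R y₀) := by
    have h1 : ∀ x ∈ (Icc 1 P).filter (fun x : ℕ => (M : ℤ) ∣ x - x₀),
        ∑ y ∈ (Icc 1 R).filter (fun y : ℕ => (M : ℤ) ∣ y - y₀),
        ∑ g ∈ (Icc 1 P).filter (fun g => Nat.Coprime g M), (tn g : ℝ) * √(g : ℝ) *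
        ((if g ∣ 2 * x then 1 / √(x : ℝ) else 0) * (if g ∣ 2 * y then 1 / √(y : ℝ) else 0)) =
        ∑ g ∈ (Icc 1 P).filter (fun g => Nat.Coprime g M),
        ∑ y ∈ (Icc 1 R).filter (fun y : ℕ => (M : ℤ) ∣ y - y₀), (tn g : ℝ) * √(g : ℝ) *
        ((if g ∣ 2 * x then 1 / √(x : ℝ) else 0) * (if g ∣ 2 * y then 1 / √(y : ℝ) else 0)) :=
      fun x _ => Finset.sum_comm
    rw [Finset.sum_congr rfl h1, Finset.sum_comm]
    apply Finset.sum_congr rfl
    intro g _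
    have e1 : A g M P x₀ = ∑ x ∈ (Icc 1 P).filter (fun x : ℕ => (M : ℤ) ∣ x - x₀),
        if g ∣ 2 * x then 1 / √(x : ℝ) else 0 := by
      unfold A
      rw [← Finset.sum_filter, Finset.filter_filter]
    have e2 : A g M R y₀ = ∑ y ∈ (Icc 1 R).filter (fun y : ℕ => (M : ℤ) ∣ y - y₀),
        if g ∣ 2 * y then 1 / √(y : ℝ) else 0 := by
      unfold A
      rw [← Finset.sum_filter, Finset.filter_filter]
    rw [e1, e2, Finset.sum_mul_sum, Finset.mul_sum]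
    apply Finset.sum_congr rfl
    intro x _
    rw [Finset.mul_sum]
  have hg : ∀ g ∈ (Icc 1 P).filter (fun g => Nat.Coprime g M), (tn g : ℝ) * √(g : ℝ) *
      (A g M P x₀ * A g M R y₀) ≤ 25 / (M : ℝ) ^ 2 * K * ((tn g : ℝ) * w g) +
        16 * K * (if G < g then (tn g : ℝ) * w g else 0) := by
    intro g hg
    rw [Finset.mem_filter, Finset.mem_Icc] at hg
    obtain ⟨⟨hg1, hg2⟩, hc⟩ := hg
    have hg0 : (0 : ℝ) < g := by exact_mod_cast hg1
    have hsg : 0 < √(g : ℝ) := Real.sqrt_pos.mpr hg0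
    have hgg : √(g : ℝ) * √(g : ℝ) = g := Real.mul_self_sqrt hg0.le
    have hw : √(g : ℝ) / (g * g) = w g := by
      unfold w
      rw [div_eq_div_iff (by positivity) (by positivity)]
      nlinarith
    have hw0 := w_nonneg g
    have ht0 : (0 : ℝ) ≤ tn g := Nat.cast_nonneg _
    by_cases h : G < g
    · rw [if_pos h]
      have h1 := A_le g M P x₀ hg1
      have h2 := A_le g M R y₀ hg1
      have h3 := mul_le_mul h1 h2 (A_nonneg _ _ _ _) ((A_nonneg _ _ _ _).trans h1)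
      have h4 : (tn g : ℝ) * √(g : ℝ) * (A g M P x₀ * A g M R y₀) ≤
          16 * K * ((tn g : ℝ) * w g) := by
        calc (tn g : ℝ) * √(g : ℝ) * (A g M P x₀ * A g M R y₀)
            ≤ (tn g : ℝ) * √(g : ℝ) * (4 * √(P : ℝ) / g * (4 * √(R : ℝ) / g)) :=
              mul_le_mul_of_nonneg_left h3 (by positivity)
          _ = 16 * (√(P : ℝ) * √(R : ℝ)) * (tn g * (√(g : ℝ) / (g * g))) := by
              field_simp
              ring
          _ = _ := by rw [hK', hw]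
      have h5 : 0 ≤ 25 / (M : ℝ) ^ 2 * K * ((tn g : ℝ) * w g) := by positivity
      linarith
    · rw [if_neg h, mul_zero, add_zero]
      have hgG : (g * M) ^ 2 ≤ (G * M) ^ 2 :=
        Nat.pow_le_pow_left (Nat.mul_le_mul_right M (by omega)) 2
      have h1 := A_le'' g M P x₀ hg1 hM hc (hgG.trans hP)
      have h2 := A_le'' g M R y₀ hg1 hM hc (hgG.trans hR)
      have h3 := mul_le_mul h1 h2 (A_nonneg _ _ _ _) ((A_nonneg _ _ _ _).trans h1)
      calc (tn g : ℝ) * √(g : ℝ) * (A g M P x₀ * A g M R y₀)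
          ≤ (tn g : ℝ) * √(g : ℝ) * (5 * √(P : ℝ) / (g * M) * (5 * √(R : ℝ) / (g * M))) :=
            mul_le_mul_of_nonneg_left h3 (by positivity)
        _ = 25 / (M : ℝ) ^ 2 * (√(P : ℝ) * √(R : ℝ)) * (tn g * (√(g : ℝ) / (g * g))) := by
            field_simp
            ring
        _ = _ := by rw [hK', hw]
  have hfin : ∑ g ∈ (Icc 1 P).filter (fun g => Nat.Coprime g M),
      (25 / (M : ℝ) ^ 2 * K * ((tn g : ℝ) * w g) +
        16 * K * (if G < g then (tn g : ℝ) * w g else 0)) ≤ (225 / (M : ℝ) ^ 2 + ε) * K := by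
    have hf0 : ∀ g : ℕ, 0 ≤ (tn g : ℝ) * w g :=
      fun g => mul_nonneg (Nat.cast_nonneg _) (w_nonneg g)
    refine (Finset.sum_le_sum_of_subset_of_nonneg (Finset.filter_subset _ _)
      (fun g _ _ => ?_)).trans ?_
    · have := hf0 g
      split_ifs <;> positivity
    rw [Finset.sum_add_distrib, ← Finset.mul_sum, ← Finset.mul_sum, ← Finset.sum_filter]
    have h1 : ∑ g ∈ Icc 1 P, (tn g : ℝ) * w g ≤ 9 := sum_tau P
    have h2 := hG P
    have h3 : 25 / (M : ℝ) ^ 2 * K * ∑ g ∈ Icc 1 P, (tn g : ℝ) * w g ≤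
        25 / (M : ℝ) ^ 2 * K * 9 := mul_le_mul_of_nonneg_left h1 (by positivity)
    have h4 : 16 * K * ∑ g ∈ (Icc 1 P).filter (fun g => G < g), (tn g : ℝ) * w g ≤
        16 * K * (ε / 16) := mul_le_mul_of_nonneg_left h2 (by positivity)
    have h5 : (225 / (M : ℝ) ^ 2 + ε) * K = 25 / (M : ℝ) ^ 2 * K * 9 + 16 * K * (ε / 16) := by
      ring
    linarith
  calc _ ≤ _ := Finset.sum_le_sum hterm
    _ = _ := hcomm
    _ ≤ _ := Finset.sum_le_sum hg
    _ ≤ _ := hfin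

end Pool.Agent.L0h29.LR
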